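import Mathlib
import Pool.Agent.Helper66.DS.Defs

set_option autoImplicit false

namespace Pool.Agent.Helper66.DS

open MeasureTheory Set

theorem slice_measurable {ι : Type} [Fintype ι] (a b : ι → ℝ) : MeasurableSet (box a b) := by
  have : box a b = Set.pi univ (fun i => Ico (a i) (b i)) := by
    ext y; simp [box, Set.mem_pi]
  rw [this]
  exact MeasurableSet.univ_pi (fun i => measurableSet_Ico)

theorem slice_prod {ι : Type} [Fintype ι] [DecidableEq ι] (a b : ι → ℝ) (j : ι) (t t' : ℝ) :
    ∏ i, (Function.update b j t' i - Function.update a j t i)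
      = (t' - t) * ∏ i ∈ Finset.univ.erase j, (b i - a i) := by
  rw [← Finset.mul_prod_erase Finset.univ _ (Finset.mem_univ j)]
  congr 1
  · simp
  · apply Finset.prod_congr rfl
    intro i hi
    have hij : i ≠ j := Finset.ne_of_mem_erase hi
    simp [Function.update_of_ne hij]

theorem slice_diff {ι : Type} [Fintype ι] [DecidableEq ι] (μ : Measure (ι → ℝ)) [IsFiniteMeasure μ]
    (a b : ι → ℝ) (j : ι) (t t' : ℝ) (h1 : a j ≤ t) (h2 : t ≤ t') :
    μ.real (box a (Function.update b j t')) = μ.real (box a (Function.update b j t))
      + μ.real (box (Function.update a j t) (Function.update b j t')) := by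
  have hU : box a (Function.update b j t') = box a (Function.update b j t)
      ∪ box (Function.update a j t) (Function.update b j t') := by
    ext y
    simp only [box, Set.mem_ofPred_eq, Set.mem_union]
    constructor
    · intro h
      by_cases hy : y j < t
      · left
        intro i
        by_cases hij : i = j
        · subst hij
          simp only [Function.update_self]
          exact ⟨(h i).1, hy⟩
        · have := h i
          simp only [Function.update_of_ne hij] at this ⊢
          exact this
      · right
        intro i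
        by_cases hij : i = j
        · subst hij
          have := h i
          simp only [Function.update_self] at this ⊢
          exact ⟨not_lt.1 hy, this.2⟩
        · have := h i
          simp only [Function.update_of_ne hij] at this ⊢
          exact this
    · rintro (h | h)
      · intro i
        have := h i
        by_cases hij : i = j
        · subst hij
          simp only [Function.update_self] at this ⊢
          exact ⟨this.1, lt_of_lt_of_le this.2 h2⟩
        · simp only [Function.update_of_ne hij] at this ⊢
          exact this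
      · intro i
        have := h i
        by_cases hij : i = j
        · subst hij
          simp only [Function.update_self] at this ⊢
          exact ⟨le_trans h1 this.1, this.2⟩
        · simp only [Function.update_of_ne hij] at this ⊢
          exact this
  have hD : Disjoint (box a (Function.update b j t))
      (box (Function.update a j t) (Function.update b j t')) := by
    rw [Set.disjoint_left]
    intro y hy hy'
    have e1 := (hy j).2
    have e2 := (hy' j).1
    simp only [Function.update_self] at e1 e2
    linarith
  rw [hU, measureReal_union hD (slice_measurable _ _)]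

theorem slice_step {ι : Type} [Fintype ι] [DecidableEq ι] (μ : Measure (ι → ℝ)) [IsFiniteMeasure μ]
    (c C : ℝ) (hc : 0 < c) (hC : 0 < C)
    (hμ : ∀ a b : ι → ℝ, (∀ i, -1 ≤ a i ∧ a i ≤ b i ∧ b i ≤ 1) →
      c * ∏ i, (b i - a i) ≤ μ.real (box a b) ∧ μ.real (box a b) ≤ C * ∏ i, (b i - a i))
    (m : ℕ) (hm : 1 ≤ m) (a b : ι → ℝ) (hab : ∀ i, -1 ≤ a i ∧ a i < b i ∧ b i ≤ 1) (j : ι) :
    ∃ t : ℕ → ℝ, (∀ q, a j ≤ t q ∧ t q ≤ b j) ∧ (∀ q q', q < q' → q' ≤ m → t q < t q') ∧
      (∀ q, q < m → t (q + 1) - t q ≤ 2 * C / (c * m)) ∧
      (∀ q, q < m → μ.real (box (Function.update a j (t q)) (Function.update b j (t (q + 1)))) * m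
        = μ.real (box a b)) := by
  set R : ℝ := ∏ i ∈ Finset.univ.erase j, (b i - a i) with hR
  have hRpos : 0 < R := Finset.prod_pos (fun i _ => sub_pos.2 (hab i).2.1)
  set F : ℝ → ℝ := fun t => μ.real (box a (Function.update b j t)) with hF
  have hm0 : (0 : ℝ) < m := by exact_mod_cast hm
  -- two-sided bounds for a slab
  have hslab : ∀ t t' : ℝ, a j ≤ t → t ≤ t' → t' ≤ b j →
      c * ((t' - t) * R) ≤ F t' - F t ∧ F t' - F t ≤ C * ((t' - t) * R) := by
    intro t t' h1 h2 h3
    have h := hμ (Function.update a j t) (Function.update b j t') (by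
      intro i
      by_cases hij : i = j
      · subst hij
        simp only [Function.update_self]
        exact ⟨(hab i).1.trans h1, h2, h3.trans (hab i).2.2⟩
      · simp only [Function.update_of_ne hij]
        exact ⟨(hab i).1, (hab i).2.1.le, (hab i).2.2⟩)
    rw [slice_prod] at h
    have hd := slice_diff μ a b j t t' h1 h2
    have e : F t' - F t = μ.real (box (Function.update a j t) (Function.update b j t')) := by
      simp only [hF]; linarith
    rw [e]
    exact h
  have hjlt : a j < b j := (hab j).2.1
  have hFa : F (a j) = 0 := by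
    have : box a (Function.update b j (a j)) = ∅ := by
      ext y
      simp only [box, Set.mem_ofPred_eq, Set.mem_empty_iff_false, iff_false]
      intro h
      have := h j
      simp only [Function.update_self] at this
      linarith [this.1, this.2]
    simp [hF, this]
  have hFb : F (b j) = μ.real (box a b) := by
    simp [hF]
  have hFbpos : 0 < F (b j) := by
    have := (hslab (a j) (b j) le_rfl hjlt.le le_rfl).1
    rw [hFa, sub_zero] at this
    exact lt_of_lt_of_le (mul_pos hc (mul_pos (sub_pos.2 hjlt) hRpos)) this
  have hcont : ContinuousOn F (Icc (a j) (b j)) := by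
    have hL : LipschitzOnWith (Real.toNNReal (C * R)) F (Icc (a j) (b j)) := by
      apply LipschitzOnWith.of_dist_le_mul
      intro x hx y hy
      rw [Real.coe_toNNReal _ (mul_pos hC hRpos).le, Real.dist_eq, Real.dist_eq]
      rcases le_total x y with hxy | hxy
      · have h := hslab x y hx.1 hxy hy.2
        have h0 : 0 ≤ F y - F x := le_trans (by
          apply mul_nonneg hc.le (mul_nonneg (sub_nonneg.2 hxy) hRpos.le)) h.1
        rw [abs_sub_comm, abs_of_nonneg h0, abs_sub_comm x y, abs_of_nonneg (sub_nonneg.2 hxy)]
        linarith [h.2]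
      · have h := hslab y x hy.1 hxy hx.2
        have h0 : 0 ≤ F x - F y := le_trans (by
          apply mul_nonneg hc.le (mul_nonneg (sub_nonneg.2 hxy) hRpos.le)) h.1
        rw [abs_of_nonneg h0, abs_of_nonneg (sub_nonneg.2 hxy)]
        linarith [h.2]
    exact hL.continuousOn
  have hivt := intermediate_value_Icc hjlt.le hcont
  have hex : ∀ q : ℕ, ∃ t, (a j ≤ t ∧ t ≤ b j) ∧ (q ≤ m → F t = q / m * F (b j)) := by
    intro q
    by_cases hq : q ≤ m
    · have hmem : (q : ℝ) / m * F (b j) ∈ Icc (F (a j)) (F (b j)) := by
        rw [hFa]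
        constructor
        · positivity
        · have : (q : ℝ) / m ≤ 1 := by
            rw [div_le_one hm0]; exact_mod_cast hq
          calc (q : ℝ) / m * F (b j) ≤ 1 * F (b j) := by gcongr
            _ = F (b j) := one_mul _
      obtain ⟨t, ht, htF⟩ := hivt hmem
      exact ⟨t, ⟨ht.1, ht.2⟩, fun _ => htF⟩
    · exact ⟨a j, ⟨le_rfl, hjlt.le⟩, fun h => absurd h hq⟩
  choose t ht1 ht2 using hex
  have hmono : ∀ q q', q < q' → q' ≤ m → t q < t q' := by
    intro q q' hqq hq'
    by_contra hcon
    rw [not_lt] at hcon
    have h := (hslab (t q') (t q) (ht1 q').1 hcon (ht1 q).2).1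
    have h0 : 0 ≤ F (t q) - F (t q') := le_trans (by
          apply mul_nonneg hc.le (mul_nonneg (sub_nonneg.2 hcon) hRpos.le)) h
    rw [ht2 q (hqq.le.trans hq'), ht2 q' hq'] at h0
    have h1 : (q : ℝ) < q' := by exact_mod_cast hqq
    have h2 : (q : ℝ) / m < q' / m := by gcongr
    have h3 : (q : ℝ) / m * F (b j) < q' / m * F (b j) := by gcongr
    linarith
  refine ⟨t, ht1, hmono, ?_, ?_⟩
  · intro q hq
    have hlt := hmono q (q + 1) (Nat.lt_succ_self q) hq
    have h := (hslab (t q) (t (q + 1)) (ht1 q).1 hlt.le (ht1 (q + 1)).2).1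
    have hall := (hslab (a j) (b j) le_rfl hjlt.le le_rfl).2
    rw [hFa, sub_zero] at hall
    rw [ht2 q hq.le, ht2 (q + 1) hq] at h
    have e : ((q + 1 : ℕ) : ℝ) / m * F (b j) - (q : ℝ) / m * F (b j) = F (b j) / m := by
      push_cast; field_simp; ring
    rw [e] at h
    have hside : b j - a j ≤ 2 := by linarith [(hab j).1, (hab j).2.2]
    rw [le_div_iff₀ (mul_pos hc hm0)]
    have h4 : F (b j) / m * m = F (b j) := by field_simp
    have h5 : c * ((t (q + 1) - t q) * R) * m ≤ C * (2 * R) := by
      calc c * ((t (q + 1) - t q) * R) * m ≤ F (b j) / m * m := by gcongr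
        _ = F (b j) := h4
        _ ≤ C * ((b j - a j) * R) := hall
        _ ≤ C * (2 * R) := by gcongr
    have h6 : ((t (q + 1) - t q) * (c * m)) * R ≤ (2 * C) * R := by nlinarith
    exact le_of_mul_le_mul_right h6 hRpos
  · intro q hq
    have hlt := hmono q (q + 1) (Nat.lt_succ_self q) hq
    have hd := slice_diff μ a b j (t q) (t (q + 1)) (ht1 q).1 hlt.le
    have e1 : μ.real (box a (Function.update b j (t (q + 1)))) = ((q + 1 : ℕ) : ℝ) / m * F (b j) :=
      ht2 (q + 1) hq
    have e2 : μ.real (box a (Function.update b j (t q))) = (q : ℝ) / m * F (b j) :=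
      ht2 q hq.le
    rw [e1, e2, hFb] at hd
    have e3 : μ.real (box (Function.update a j (t q)) (Function.update b j (t (q + 1))))
        = ((q + 1 : ℕ) : ℝ) / m * μ.real (box a b) - (q : ℝ) / m * μ.real (box a b) := by
      linarith
    rw [e3]
    push_cast
    field_simp
    ring

theorem slice {ι : Type} [Fintype ι] [DecidableEq ι] (μ : Measure (ι → ℝ)) [IsFiniteMeasure μ]
    (c C : ℝ) (hc : 0 < c)
    (hμ : ∀ a b : ι → ℝ, (∀ i, -1 ≤ a i ∧ a i ≤ b i ∧ b i ≤ 1) →
      c * ∏ i, (b i - a i) ≤ μ.real (box a b) ∧ μ.real (box a b) ≤ C * ∏ i, (b i - a i))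
    (m : ℕ) (hm : 1 ≤ m) :
    ∃ (P : Type) (_ : Fintype P) (a b : P → ι → ℝ),
      Fintype.card P = m ^ Fintype.card ι ∧
      (∀ p i, -1 ≤ a p i ∧ a p i < b p i ∧ b p i ≤ 1 ∧ b p i - a p i ≤ 2 * C / (c * m)) ∧
      (∀ p p', p ≠ p' → Disjoint (box (a p) (b p)) (box (a p') (b p'))) ∧
      (∀ p, μ.real (box (a p) (b p)) * (m : ℝ) ^ Fintype.card ι
        = μ.real (box (fun _ => -1) (fun _ => 1))) := by
  have hC : 0 < C := by
    have h := hμ (fun _ => -1) (fun _ => 1) (fun i => by norm_num)
    have hp : 0 < ∏ i : ι, ((1 : ℝ) - (-1)) := Finset.prod_pos (fun i _ => by norm_num)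
    have h2 := h.1.trans h.2
    have h3 : c ≤ C := le_of_mul_le_mul_right h2 hp
    linarith
  have key : ∀ s : Finset ι, ∃ (P : Type) (_ : Fintype P) (a b : P → ι → ℝ),
      Fintype.card P = m ^ s.card ∧
      (∀ p i, -1 ≤ a p i ∧ a p i < b p i ∧ b p i ≤ 1) ∧
      (∀ p, ∀ i ∈ s, b p i - a p i ≤ 2 * C / (c * m)) ∧
      (∀ p p', p ≠ p' → Disjoint (box (a p) (b p)) (box (a p') (b p'))) ∧
      (∀ p, μ.real (box (a p) (b p)) * (m : ℝ) ^ s.card
        = μ.real (box (fun _ => -1) (fun _ => 1))) := by
    intro s
    induction s using Finset.induction_on with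
    | empty =>
      refine ⟨Unit, inferInstance, fun _ _ => -1, fun _ _ => 1, by simp, ?_, ?_, ?_, ?_⟩
      · intro p i; norm_num
      · intro p i hi; simp at hi
      · intro p p' h; exact absurd (Subsingleton.elim p p') h
      · intro p; simp
    | insert j s hj ih =>
      obtain ⟨P, _, a, b, hcard, hab, hside, hdisj, hvol⟩ := ih
      choose t ht1 ht2 ht3 ht4 using fun p =>
        slice_step μ c C hc hC hμ m hm (a p) (b p) (hab p) j
      have hsub : ∀ (p : P) (q : Fin m), box (Function.update (a p) j (t p q))
          (Function.update (b p) j (t p (q + 1))) ⊆ box (a p) (b p) := by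
        intro p q y hy i
        have := hy i
        by_cases hij : i = j
        · subst hij
          simp only [Function.update_self] at this
          exact ⟨(ht1 p q).1.trans this.1, lt_of_lt_of_le this.2 (ht1 p (q + 1)).2⟩
        · simp only [Function.update_of_ne hij] at this
          exact this
      refine ⟨P × Fin m, inferInstance, fun x => Function.update (a x.1) j (t x.1 x.2),
        fun x => Function.update (b x.1) j (t x.1 (x.2 + 1)), ?_, ?_, ?_, ?_, ?_⟩
      · rw [Fintype.card_prod, hcard, Fintype.card_fin, Finset.card_insert_of_notMem hj, pow_succ]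
      · rintro ⟨p, q⟩ i
        simp only
        by_cases hij : i = j
        · subst hij
          simp only [Function.update_self]
          exact ⟨(hab p i).1.trans (ht1 p q).1, ht2 p q (q + 1) (Nat.lt_succ_self _) q.2,
            (ht1 p (q + 1)).2.trans (hab p i).2.2⟩
        · simp only [Function.update_of_ne hij]
          exact hab p i
      · rintro ⟨p, q⟩ i hi
        simp only
        by_cases hij : i = j
        · subst hij
          simp only [Function.update_self]
          exact ht3 p q q.2
        · simp only [Function.update_of_ne hij]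
          exact hside p i (Finset.mem_of_mem_insert_of_ne hi hij)
      · rintro ⟨p, q⟩ ⟨p', q'⟩ hne
        by_cases hpp : p = p'
        · subst hpp
          have hqq : (q : ℕ) ≠ q' := by
            intro h
            apply hne
            rw [Fin.ext h]
          rw [Set.disjoint_left]
          intro y hy hy'
          have e1 := hy j
          have e2 := hy' j
          simp only [Function.update_self] at e1 e2
          rcases lt_or_gt_of_ne hqq with h | h
          · have : t p (q + 1) ≤ t p q' := by
              rcases Nat.eq_or_lt_of_le (Nat.succ_le_of_lt h) with h' | h'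
              · have : (q : ℕ) + 1 = q' := h'
                rw [this]
              · exact (ht2 p (q + 1) q' h' q'.2.le).le
            linarith [e1.2, e2.1]
          · have : t p (q' + 1) ≤ t p q := by
              rcases Nat.eq_or_lt_of_le (Nat.succ_le_of_lt h) with h' | h'
              · have : (q' : ℕ) + 1 = q := h'
                rw [this]
              · exact (ht2 p (q' + 1) q h' q.2.le).le
            linarith [e2.2, e1.1]
        · exact (hdisj p p' hpp).mono (hsub p q) (hsub p' q')
      · rintro ⟨p, q⟩
        simp only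
        rw [Finset.card_insert_of_notMem hj, pow_succ, ← hvol p, ← ht4 p q q.2]
        ring
  obtain ⟨P, hP, a, b, hcard, hab, hside, hdisj, hvol⟩ := key Finset.univ
  refine ⟨P, hP, a, b, by simpa using hcard, ?_, hdisj, by simpa using hvol⟩
  intro p i
  exact ⟨(hab p i).1, (hab p i).2.1, (hab p i).2.2, hside p i (Finset.mem_univ i)⟩

end Pool.Agent.Helper66.DS
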